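import Pool.Agent.Y167.Nest.Top

/-!
If the inside of `S` is an open cell, then every compact subset of it is inside a sphere lying
in it.
-/

set_option autoImplicit false
open Set Filter Topology

namespace Pool.Agent.Y167.Nest

theorem sub_ins_gen {X : Type*} [PseudoMetricSpace X] (S Ω : Set X) (hO : IsOpen Ω)
    (hb : Bornology.IsBounded Ω) (hf : frontier Ω ⊆ S) (hd : Disjoint Ω S) : Ω ⊆ ins S := by
  intro x hx
  have hxS : x ∉ S := fun h => Set.disjoint_left.1 hd hx h
  refine ⟨hxS, hb.subset ?_⟩
  have hxc : x ∈ connectedComponentIn Sᶜ x := mem_connectedComponentIn hxS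
  apply isPreconnected_connectedComponentIn.subset_left_of_subset_union hO
    (isClosed_closure (s := Ω)).isOpen_compl
  · rw [Set.disjoint_compl_right_iff_subset]
    exact subset_closure
  · intro z hz
    by_cases hzO : z ∈ Ω
    · exact Or.inl hzO
    · right
      intro hzc
      have hzf : z ∈ frontier Ω := by
        rw [hO.frontier_eq]
        exact ⟨hzc, hzO⟩
      exact connectedComponentIn_subset _ _ hz (hf hzf)
  · exact ⟨x, hxc, hx⟩

theorem isOpen_ins {X : Type*} [PseudoMetricSpace X] [LocallyConnectedSpace X] {S : Set X}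
    (hS : IsClosed S) : IsOpen (ins S) := by
  rw [isOpen_iff_mem_nhds]
  intro x hx
  exact Filter.mem_of_superset
    (hS.isOpen_compl.connectedComponentIn.mem_nhds (mem_connectedComponentIn hx.1))
    (fun y hy => mem_ins_of_mem hx hy)

/-- spheres of radius `r` and `1` are homeomorphic -/
noncomputable def sphereHomeo {E : Type*} [NormedAddCommGroup E] [NormedSpace ℝ E] (r : ℝ)
    (hr : 0 < r) : Metric.sphere (0 : E) 1 ≃ₜ Metric.sphere (0 : E) r where
  toFun x := ⟨r • (x : E), by
    have := x.2
    rw [mem_sphere_zero_iff_norm] at this ⊢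
    rw [norm_smul, this, Real.norm_of_nonneg hr.le, mul_one]⟩
  invFun x := ⟨r⁻¹ • (x : E), by
    have := x.2
    rw [mem_sphere_zero_iff_norm] at this ⊢
    rw [norm_smul, this, norm_inv, Real.norm_of_nonneg hr.le, inv_mul_cancel₀ hr.ne']⟩
  left_inv x := by
    ext1
    exact inv_smul_smul₀ hr.ne' _
  right_inv x := by
    ext1
    exact smul_inv_smul₀ hr.ne' _
  continuous_toFun := by
    apply Continuous.subtype_mk
    exact continuous_const.smul continuous_subtype_val
  continuous_invFun := by
    apply Continuous.subtype_mk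
    exact continuous_const.smul continuous_subtype_val

theorem exists_between {E : Type*} [NormedAddCommGroup E] [NormedSpace ℝ E]
    [FiniteDimensional ℝ E] {S A : Set E} (hS : IsClosed S) (hA : IsCompact A)
    (hAS : A ⊆ ins S) (h : ins S ≃ₜ E) :
    ∃ T : Set E, Nonempty (T ≃ₜ Metric.sphere (0 : E) 1) ∧ A ⊆ ins T ∧ T ⊆ ins S := by
  haveI : ProperSpace E := FiniteDimensional.proper_real E
  -- the parametrisation of the inside
  let g : E → E := fun y => (h.symm y : E)
  have hg : Topology.IsOpenEmbedding g :=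
    (isOpen_ins hS).isOpenEmbedding_subtypeVal.comp h.symm.isOpenEmbedding
  have hgS : ∀ y, g y ∈ ins S := fun y => (h.symm y).2
  have hgs : ∀ x ∈ ins S, ∃ y, g y = x := fun x hx => ⟨h ⟨x, hx⟩, by simp [g]⟩
  have hpre : IsCompact (g ⁻¹' A) := by
    rw [hg.isInducing.isCompact_preimage_iff
      (fun a ha => (hgs a (hAS ha)).imp (fun y hy => hy))]
    exact hA
  obtain ⟨r0, hr0⟩ := hpre.isBounded.subset_ball (0 : E)
  set r : ℝ := max r0 1 with hr
  have hrpos : 0 < r := lt_of_lt_of_le one_pos (le_max_right _ _)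
  have hAr : g ⁻¹' A ⊆ Metric.ball 0 r := hr0.trans (Metric.ball_subset_ball (le_max_left _ _))
  refine ⟨g '' Metric.sphere 0 r, ⟨?_⟩, ?_, ?_⟩
  · exact ((sphereHomeo r hrpos).trans (hg.isEmbedding.homeomorphImage _)).symm
  · have h1 : A ⊆ g '' Metric.ball 0 r := by
      intro a ha
      obtain ⟨y, rfl⟩ := hgs a (hAS ha)
      exact ⟨y, hAr ha, rfl⟩
    refine h1.trans (sub_ins_gen _ _ (hg.isOpenMap _ Metric.isOpen_ball) ?_ ?_ ?_)
    · have hc : IsCompact (g '' Metric.closedBall 0 r) :=
        (isCompact_closedBall _ _).image hg.continuous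
      exact hc.isBounded.subset (image_mono Metric.ball_subset_closedBall)
    · have hc : IsClosed (g '' Metric.closedBall 0 r) :=
        ((isCompact_closedBall _ _).image hg.continuous).isClosed
      rw [(hg.isOpenMap _ Metric.isOpen_ball).frontier_eq]
      rintro x ⟨hx1, hx2⟩
      have hx3 := closure_minimal (image_mono Metric.ball_subset_closedBall) hc hx1
      obtain ⟨y, hy, rfl⟩ := hx3
      refine ⟨y, ?_, rfl⟩
      rw [Metric.mem_sphere]
      rw [Metric.mem_closedBall] at hy
      by_contra hne
      exact hx2 ⟨y, lt_of_le_of_ne hy hne, rfl⟩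
    · rw [Set.disjoint_left]
      rintro _ ⟨y, hy, rfl⟩ ⟨z, hz, hzy⟩
      have := hg.injective hzy
      subst this
      rw [Metric.mem_ball] at hy
      rw [Metric.mem_sphere] at hz
      exact absurd hz hy.ne
  · rintro _ ⟨y, _, rfl⟩
    exact hgS y

end Pool.Agent.Y167.Nest
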