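import Pool.Agent.Y167.Nest.Cell

/-!
Transport of the inside of a compact set along an open embedding of the space in itself.
-/

set_option autoImplicit false
open Set Filter Topology Metric

namespace Pool.Agent.Y167.Nest

variable {E : Type*} [NormedAddCommGroup E] [NormedSpace ℝ E]

theorem shell_preconnected (hE : 1 < Module.rank ℝ E) (ρ : ℝ) (hρ : 0 < ρ) :
    IsPreconnected {z : E | ρ ≤ ‖z‖} := by
  have h1 : IsPreconnected ((sphere (0 : E) 1) ×ˢ (Ici ρ)) :=
    (isPreconnected_sphere hE 0 1).prod isPreconnected_Ici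
  have h2 : {z : E | ρ ≤ ‖z‖} = (fun p : E × ℝ => p.2 • p.1) '' ((sphere (0 : E) 1) ×ˢ (Ici ρ)) := by
    ext z
    constructor
    · intro hz
      have hz' : ρ ≤ ‖z‖ := hz
      have hpos : 0 < ‖z‖ := hρ.trans_le hz'
      refine ⟨(‖z‖⁻¹ • z, ‖z‖), ⟨?_, hz'⟩, ?_⟩
      · rw [mem_sphere_zero_iff_norm, norm_smul, norm_inv, norm_norm, inv_mul_cancel₀ hpos.ne']
      · exact smul_inv_smul₀ hpos.ne' z
    · rintro ⟨⟨x, t⟩, ⟨hx, ht⟩, rfl⟩
      have hx' : ‖x‖ = 1 := mem_sphere_zero_iff_norm.1 hx
      have ht' : ρ ≤ t := ht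
      show ρ ≤ ‖t • x‖
      rw [norm_smul, hx', mul_one, Real.norm_of_nonneg (hρ.le.trans ht')]
      exact ht'
  rw [h2]
  exact h1.image _ (continuous_snd.smul continuous_fst).continuousOn

theorem univ_unbounded [Nontrivial E] : ¬ Bornology.IsBounded (univ : Set E) := by
  intro hb
  obtain ⟨C, hC⟩ := hb.exists_norm_le
  obtain ⟨z, hz⟩ := NormedSpace.exists_lt_norm ℝ E C
  exact absurd hz (not_lt.2 (hC z (mem_univ z)))

theorem closure_comp_sub {X : Type*} [PseudoMetricSpace X] {S : Set X} (x : X) (hx : x ∉ S) :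
    closure (connectedComponentIn Sᶜ x) ⊆ connectedComponentIn Sᶜ x ∪ S := by
  intro z hz
  by_cases hzS : z ∈ S
  · exact Or.inr hzS
  · left
    have h1 : IsPreconnected (connectedComponentIn Sᶜ x ∪ {z}) :=
      isPreconnected_connectedComponentIn.subset_closure subset_union_left
        (union_subset subset_closure (singleton_subset_iff.2 hz))
    refine h1.subset_connectedComponentIn (Or.inl (mem_connectedComponentIn hx)) ?_
      (Or.inr rfl)
    rintro y (hy | hy)
    · exact connectedComponentIn_subset _ _ hy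
    · rw [mem_singleton_iff] at hy
      subst hy
      exact hzS

theorem split_univ (R : ℝ) : (univ : Set E) = closedBall 0 R ∪ {z : E | R ≤ ‖z‖} := by
  ext z
  simp only [mem_univ, mem_union, mem_closedBall_zero_iff, true_iff]
  exact le_total _ _

variable [FiniteDimensional ℝ E] [Nontrivial E]

/-- A component of the complement of `g(S)` which contains the far end of `range g` is
unbounded. -/
theorem far_unbounded {g : E → E} (hg : Topology.IsOpenEmbedding g) {S : Set E}
    (hS : IsCompact S) (R : ℝ) (y : E) (hy : y ∉ g '' S)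
    (hV : g '' {z : E | R ≤ ‖z‖} ⊆ connectedComponentIn (g '' S)ᶜ y) :
    ¬ Bornology.IsBounded (connectedComponentIn (g '' S)ᶜ y) := by
  haveI : ProperSpace E := FiniteDimensional.proper_real E
  intro hb
  set W := connectedComponentIn (g '' S)ᶜ y with hW
  have hcl : IsClosed (g '' S) := (hS.image hg.continuous).isClosed
  have hWo : IsOpen W := hcl.isOpen_compl.connectedComponentIn
  have hK : IsCompact (g '' closedBall 0 R) := (isCompact_closedBall _ _).image hg.continuous
  have hr : range g = g '' closedBall 0 R ∪ g '' {z : E | R ≤ ‖z‖} := by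
    rw [← image_union, ← split_univ, image_univ]
  have hWc : closure W ⊆ W ∪ g '' S := closure_comp_sub y hy
  have hSr : g '' S ⊆ range g := image_subset_range _ _
  have hC1 : IsOpen (range g ∪ W) := hg.isOpen_range.union hWo
  have hC2 : IsClosed (range g ∪ W) := by
    rw [← closure_subset_iff_isClosed, closure_union]
    refine union_subset ?_ ?_
    · rw [hr, closure_union, hK.isClosed.closure_eq, ← hr]
      refine union_subset ?_ ?_
      · exact (image_subset_range _ _).trans subset_union_left
      · refine (closure_mono hV).trans (hWc.trans ?_)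
        exact union_subset subset_union_right (hSr.trans subset_union_left)
    · exact hWc.trans (union_subset subset_union_right (hSr.trans subset_union_left))
  have h1 : range g ∪ W = univ := IsClopen.eq_univ ⟨hC2, hC1⟩ ⟨g 0, Or.inl ⟨0, rfl⟩⟩
  apply univ_unbounded (E := E)
  rw [← h1, hr]
  exact (hK.isBounded.union (hb.subset hV)).union hb

theorem exists_radius {S : Set E} (hS : IsCompact S) : ∃ R : ℝ, 0 < R ∧ S ⊆ ball 0 R := by
  obtain ⟨r0, hr0⟩ := hS.isBounded.subset_ball (0 : E)
  exact ⟨max r0 1, lt_of_lt_of_le one_pos (le_max_right _ _),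
    hr0.trans (ball_subset_ball (le_max_left _ _))⟩

theorem far_disj {S : Set E} {R : ℝ} (hR : S ⊆ ball 0 R) : {z : E | R ≤ ‖z‖} ⊆ Sᶜ := by
  intro z hz hzS
  exact absurd (mem_ball_zero_iff.1 (hR hzS)) (not_lt.2 hz)

theorem image_far_disj {g : E → E} (hg : Function.Injective g) {S : Set E} {R : ℝ}
    (hR : S ⊆ ball 0 R) : g '' {z : E | R ≤ ‖z‖} ⊆ (g '' S)ᶜ := by
  rintro _ ⟨z, hz, rfl⟩ ⟨w, hw, hwz⟩
  rw [hg hwz] at hw
  exact far_disj hR hz hw

/-- The inside of `g(S)` lies in the range of `g`. -/
theorem ins_sub_range (hE : 1 < Module.rank ℝ E) {g : E → E} (hg : Topology.IsOpenEmbedding g)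
    {S : Set E} (hS : IsCompact S) : ins (g '' S) ⊆ range g := by
  haveI : ProperSpace E := FiniteDimensional.proper_real E
  intro y hy
  by_contra hyr
  obtain ⟨R, hR0, hR⟩ := exists_radius hS
  have hcl : IsClosed (g '' S) := (hS.image hg.continuous).isClosed
  set W := connectedComponentIn (g '' S)ᶜ y with hW
  have hWo : IsOpen W := hcl.isOpen_compl.connectedComponentIn
  have hyW : y ∈ W := mem_connectedComponentIn hy.1
  have hWpre : IsPreconnected W := isPreconnected_connectedComponentIn
  have hK : IsCompact (g '' closedBall 0 R) := (isCompact_closedBall _ _).image hg.continuous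
  have hr : range g = g '' closedBall 0 R ∪ g '' {z : E | R ≤ ‖z‖} := by
    rw [← image_union, ← split_univ, image_univ]
  by_cases hmeet : (W ∩ g '' {z : E | R ≤ ‖z‖}).Nonempty
  · obtain ⟨w, hwW, hwV⟩ := hmeet
    refine far_unbounded hg hS R y hy.1 ?_ hy.2
    rw [connectedComponentIn_eq hwW]
    exact ((shell_preconnected hE R hR0).image _
      hg.continuous.continuousOn).subset_connectedComponentIn hwV (image_far_disj hg.injective hR)
  · rw [Set.not_nonempty_iff_eq_empty] at hmeet
    -- the component misses the range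
    have hsub : W ⊆ W \ (g '' closedBall 0 R) := by
      refine hWpre.subset_left_of_subset_union (u := W \ (g '' closedBall 0 R))
        (v := W ∩ range g) (hWo.sdiff hK.isClosed) (hWo.inter hg.isOpen_range) ?_ ?_ ?_
      · rw [Set.disjoint_left]
        rintro z ⟨hzW, hz1⟩ ⟨-, hz2⟩
        rw [hr] at hz2
        rcases hz2 with h | h
        · exact hz1 h
        · have : z ∈ W ∩ g '' {z : E | R ≤ ‖z‖} := ⟨hzW, h⟩
          rw [hmeet] at this
          exact this
      · intro z hz
        by_cases h : z ∈ g '' closedBall 0 R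
        · exact Or.inr ⟨hz, image_subset_range _ _ h⟩
        · exact Or.inl ⟨hz, h⟩
      · exact ⟨y, hyW, hyW, fun h => hyr (image_subset_range _ _ h)⟩
    have hWr : ∀ z ∈ W, z ∉ range g := by
      intro z hz hzr
      rw [hr] at hzr
      rcases hzr with h | h
      · exact (hsub hz).2 h
      · have : z ∈ W ∩ g '' {z : E | R ≤ ‖z‖} := ⟨hz, h⟩
        rw [hmeet] at this
        exact this
    have hWc : IsClosed W := by
      rw [← closure_subset_iff_isClosed]
      intro z hz
      rcases closure_comp_sub y hy.1 hz with h | h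
      · exact h
      · exfalso
        obtain ⟨w, hw1, hw2⟩ := mem_closure_iff.1 hz (range g) hg.isOpen_range
          (image_subset_range _ _ h)
        exact hWr w hw2 hw1
    have h1 : W = univ := IsClopen.eq_univ ⟨hWc, hWo⟩ ⟨y, hyW⟩
    apply univ_unbounded (E := E)
    rw [← h1]
    exact hy.2

theorem ins_image (hE : 1 < Module.rank ℝ E) {g : E → E} (hg : Topology.IsOpenEmbedding g)
    {S : Set E} (hS : IsCompact S) (x : E) : g x ∈ ins (g '' S) ↔ x ∈ ins S := by
  haveI : ProperSpace E := FiniteDimensional.proper_real E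
  have hinj : Function.Injective g := hg.injective
  constructor
  · rintro ⟨h1, h2⟩
    have hxS : x ∉ S := fun h => h1 ⟨x, h, rfl⟩
    refine ⟨hxS, ?_⟩
    by_contra hub
    obtain ⟨R, hR0, hR⟩ := exists_radius hS
    obtain ⟨w, hw, hwR⟩ : ∃ w ∈ connectedComponentIn Sᶜ x, w ∉ ball (0 : E) R := by
      by_contra hcon
      push Not at hcon
      exact hub (isBounded_ball.subset hcon)
    have hwR' : R ≤ ‖w‖ := by
      rw [mem_ball_zero_iff, not_lt] at hwR
      exact hwR
    have hV : {z : E | R ≤ ‖z‖} ⊆ connectedComponentIn Sᶜ x := by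
      rw [connectedComponentIn_eq hw]
      exact (shell_preconnected hE R hR0).subset_connectedComponentIn hwR' (far_disj hR)
    have h3 : g '' connectedComponentIn Sᶜ x ⊆ connectedComponentIn (g '' S)ᶜ (g x) := by
      refine (isPreconnected_connectedComponentIn.image _
        hg.continuous.continuousOn).subset_connectedComponentIn
        ⟨x, mem_connectedComponentIn hxS, rfl⟩ ?_
      rintro _ ⟨y, hy, rfl⟩ ⟨z, hz, hzy⟩
      rw [hinj hzy] at hz
      exact connectedComponentIn_subset _ _ hy hz
    exact far_unbounded hg hS R (g x) h1 ((image_mono hV).trans h3) h2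
  · intro hx
    set W := connectedComponentIn Sᶜ x with hW
    have hWo : IsOpen W := hS.isClosed.isOpen_compl.connectedComponentIn
    have hWc : IsCompact (closure W) := hx.2.isCompact_closure
    have hWS : closure W ⊆ W ∪ S := closure_comp_sub x hx.1
    have h2 : g '' W ⊆ ins (g '' S) := by
      refine sub_ins_gen _ _ (hg.isOpenMap _ hWo) ?_ ?_ ?_
      · exact (hWc.image hg.continuous).isBounded.subset (image_mono subset_closure)
      · rw [(hg.isOpenMap _ hWo).frontier_eq]
        rintro y ⟨hy1, hy2⟩
        have hcl : IsClosed (g '' closure W) := (hWc.image hg.continuous).isClosed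
        obtain ⟨z, hz, rfl⟩ := closure_minimal (image_mono subset_closure) hcl hy1
        rcases hWS hz with h | h
        · exact absurd ⟨z, h, rfl⟩ hy2
        · exact ⟨z, h, rfl⟩
      · rw [Set.disjoint_left]
        rintro _ ⟨y, hy, rfl⟩ ⟨z, hz, hzy⟩
        rw [hinj hzy] at hz
        exact connectedComponentIn_subset _ _ hy hz
    exact h2 ⟨x, mem_connectedComponentIn hx.1, rfl⟩

theorem sub_ins_image (hE : 1 < Module.rank ℝ E) {g : E → E} (hg : Topology.IsOpenEmbedding g)
    {S A : Set E} (hS : IsCompact S) : g '' A ⊆ ins (g '' S) ↔ A ⊆ ins S := by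
  constructor
  · intro h x hx
    exact (ins_image hE hg hS x).1 (h ⟨x, hx, rfl⟩)
  · rintro h _ ⟨x, hx, rfl⟩
    exact (ins_image hE hg hS x).2 (h hx)

end Pool.Agent.Y167.Nest
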