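import Pool.Agent.Helper607.Wild.Final

/-!
An infinite nested sequence of topological spheres with no sphere between consecutive terms.
-/

set_option autoImplicit false
open Set Filter Topology

namespace Pool.Agent.Y167.Nest

open Pool.Agent.Helper607.Wild

/-- `A` lies inside `B` and no topological sphere lies between `A` and `B`. -/
def Gap (A B : Set R3) : Prop :=
  A ⊆ Helper607.Wild.ins B ∧ ¬ ∃ f : S2 → R3, Continuous f ∧ Function.Injective f ∧
    range f ⊆ Helper607.Wild.ins B ∧ A ⊆ Helper607.Wild.ins (range f)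

theorem Gap.theta {A B : Set R3} (h : Gap A B) :
    Gap (Helper607.Wild.theta '' A) (Helper607.Wild.theta '' B) := by
  refine ⟨?_, ?_⟩
  · rw [theta_ins]; exact image_mono h.1
  · rintro ⟨f, cf, jf, hf1, hf2⟩
    apply h.2
    refine ⟨Helper607.Wild.theta ∘ f, theta_iso.continuous.comp cf, theta_iso.injective.comp jf,
      ?_, ?_⟩
    · rw [range_comp]
      rw [theta_ins] at hf1
      have h2 := image_mono (f := Helper607.Wild.theta) hf1
      rwa [theta_image_image] at h2
    · rw [range_comp, theta_ins]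
      have h2 := image_mono (f := Helper607.Wild.theta) hf2
      rwa [theta_image_image] at h2

/-- points of the small cube are inner -/
theorem box_inner {E : Bool → ℝ × ℝ × ℝ → R3} {tip : Bool → R3} (h : FD E tip) (c : ℝ)
    (hc : 20 ≤ c) : cubeO (c - 18) ⊆ (Fam h c hc).inner := by
  intro x hx
  rw [Fingers.mem_inner]
  obtain ⟨h1, h2, h3⟩ := hx
  refine ⟨Or.inl ⟨by linarith, by linarith, by linarith⟩, ?_⟩
  rintro ⟨o, e⟩ hi hy
  have ho : o = false := hi
  subst ho
  have : ∃ q ∈ SigmaR ∪ DetR, x = topMap c q := by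
    rcases hy with ⟨⟨t, s⟩, ⟨ht, hs⟩, rfl⟩ | hy
    · refine ⟨E e (t, s.2, s.1), h.reg e t ?_ _ (swap_mem hs), rfl⟩
      have : (0 : ℝ) ≤ t := ht
      show -1 / 4 ≤ t
      linarith
    · rw [Set.mem_singleton_iff] at hy
      exact ⟨tip e, tip_mem h e, hy⟩
  obtain ⟨q, hq, heq⟩ := this
  obtain ⟨_, _, _, hq3⟩ := region_bd hq
  have e3 : x.2.2 = -q.2.2 + c - 27 / 2 := by rw [heq]; rfl
  have := le_abs_self x.2.2
  linarith

theorem theta_norm (x : R3) : ‖Helper607.Wild.theta x‖ = ‖x‖ := by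
  simp [Helper607.Wild.theta, Prod.norm_def]

/-- the half sides -/
noncomputable def cn (n : ℕ) : ℝ := 20 + 18 * n

theorem cn_ge (n : ℕ) : 20 ≤ cn n := by
  unfold cn
  have : (0 : ℝ) ≤ n := Nat.cast_nonneg n
  linarith

theorem exists_nest : ∃ F : ℕ → S2 → R3, (∀ n, Continuous (F n)) ∧
    (∀ n, Function.Injective (F n)) ∧ (∀ n, Gap (range (F n)) (range (F (n + 1)))) ∧
    (∀ n : ℕ, ∀ x : R3, ‖x‖ < 18 * n + 2 → x ∈ Helper607.Wild.ins (range (F n))) := by
  obtain ⟨E, tip, h1, h2, h3, h4, h5, h6, h7, h8, h9, h10, h11⟩ :=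
    exists_fingers Tab.path thePathData
  obtain ⟨A, a1, a2, a3, a4, a5, a6⟩ := arc_connected Tab.path thePathData
  have hFD : FD E tip := ⟨h1, h2, h3, h4, h5, h6, h7, h8, h9, h10⟩
  have hpair : ∀ (c c' : ℝ) (hc : 20 ≤ c) (hc' : 20 ≤ c'), c' = c + 18 →
      Gap (Helper607.Wild.theta '' (Fam hFD c hc).surf) (Fam hFD c' hc').surf := by
    intro c c' hc hc' e
    subst e
    exact ⟨(nested hFD c hc hc').trans (inner_sub_ins hFD _ hc'),
      pair hFD (wildArc Tab.path) A h11 a1 a2 a3 a4 a5 a6 the_link c hc hc'⟩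
  let S : ℕ → Set R3 := fun n => if n % 2 = 0 then (Fam hFD (cn n) (cn_ge n)).surf else
    Helper607.Wild.theta '' (Fam hFD (cn n) (cn_ge n)).surf
  have hG : ∀ n, Gap (S n) (S (n + 1)) := by
    intro n
    have hp := hpair (cn n) (cn (n + 1)) (cn_ge n) (cn_ge (n + 1))
      (by unfold cn; push_cast; ring)
    by_cases hn : n % 2 = 0
    · have hn' : ¬ (n + 1) % 2 = 0 := by omega
      have e1 : S n = (Fam hFD (cn n) (cn_ge n)).surf := if_pos hn
      have e2 : S (n + 1) = Helper607.Wild.theta '' (Fam hFD (cn (n + 1)) (cn_ge (n + 1))).surf :=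
        if_neg hn'
      rw [e1, e2]
      have h3 := hp.theta
      rwa [theta_image_image] at h3
    · have hn' : (n + 1) % 2 = 0 := by omega
      have e1 : S n = Helper607.Wild.theta '' (Fam hFD (cn n) (cn_ge n)).surf := if_neg hn
      have e2 : S (n + 1) = (Fam hFD (cn (n + 1)) (cn_ge (n + 1))).surf := if_pos hn'
      rw [e1, e2]
      exact hp
  have hpar : ∀ n, ∃ f : S2 → R3, Continuous f ∧ Function.Injective f ∧ range f = S n := by
    intro n
    obtain ⟨f, cf, jf, rf⟩ := (Fam hFD (cn n) (cn_ge n)).exists_param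
    by_cases hn : n % 2 = 0
    · exact ⟨f, cf, jf, rf.trans (if_pos hn).symm⟩
    · refine ⟨Helper607.Wild.theta ∘ f, theta_iso.continuous.comp cf, theta_iso.injective.comp jf,
        ?_⟩
      rw [range_comp, rf]
      exact (if_neg hn).symm
  have hbox : ∀ n : ℕ, ∀ x : R3, ‖x‖ < 18 * n + 2 → x ∈ Helper607.Wild.ins (S n) := by
    intro n x hx
    have hb : ∀ y : R3, ‖y‖ < 18 * n + 2 →
        y ∈ Helper607.Wild.ins (Fam hFD (cn n) (cn_ge n)).surf := by
      intro y hy
      apply inner_sub_ins hFD _ (cn_ge n)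
      apply box_inner
      rw [mem_cubeO]
      unfold cn
      linarith
    by_cases hn : n % 2 = 0
    · have e1 : S n = (Fam hFD (cn n) (cn_ge n)).surf := if_pos hn
      rw [e1]
      exact hb x hx
    · have e1 : S n = Helper607.Wild.theta '' (Fam hFD (cn n) (cn_ge n)).surf := if_neg hn
      rw [e1, theta_ins]
      exact ⟨Helper607.Wild.theta x, hb _ (by rw [theta_norm]; exact hx), theta_theta x⟩
  choose F cF jF rF using hpar
  refine ⟨F, cF, jF, fun n => ?_, fun n x hx => ?_⟩
  · rw [rF, rF]; exact hG n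
  · rw [rF]; exact hbox n x hx

end Pool.Agent.Y167.Nest
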