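import Mathlib

/-!
Elementary facts on the inside of a closed connected set.
-/

set_option autoImplicit false
open Set Filter Topology

namespace Pool.Agent.Y167.Nest

variable {X : Type*} [PseudoMetricSpace X]

/-- The points off `S` whose component in the complement of `S` is bounded. -/
def ins (S : Set X) : Set X := {x | x ∉ S ∧ Bornology.IsBounded (connectedComponentIn Sᶜ x)}

theorem mem_ins_of_mem {S : Set X} {x y : X} (hx : x ∈ ins S)
    (hy : y ∈ connectedComponentIn Sᶜ x) : y ∈ ins S := by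
  refine ⟨connectedComponentIn_subset _ _ hy, ?_⟩
  rw [← connectedComponentIn_eq hy]
  exact hx.2

/-- A connected set off `S` meeting the inside of `S` lies inside `S`. -/
theorem sub_ins_of_meet {S T : Set X} (hT : IsPreconnected T) (hd : Disjoint T S) {t : X}
    (ht : t ∈ T) (hti : t ∈ ins S) : T ⊆ ins S := by
  intro y hy
  refine mem_ins_of_mem hti ?_
  exact hT.subset_connectedComponentIn ht (fun z hz hzS => Set.disjoint_left.1 hd hz hzS) hy

/-- If `x` is inside both `S` and `T`, and no point of `T` is inside `S`, then `S` is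
inside `T`. -/
theorem sub_ins_of_not [PreconnectedSpace X] [LocallyConnectedSpace X] {S T : Set X}
    (hS : IsClosed S) (hSc : IsPreconnected S) (hSn : S.Nonempty) (hd : Disjoint T S)
    (hTi : ∀ t ∈ T, t ∉ ins S) {x : X} (hxS : x ∈ ins S) (hxT : x ∈ ins T) : S ⊆ ins T := by
  set W := connectedComponentIn Sᶜ x with hW
  have hWo : IsOpen W := hS.isOpen_compl.connectedComponentIn
  have hxW : x ∈ W := mem_connectedComponentIn hxS.1
  have hWS : W ⊆ Sᶜ := connectedComponentIn_subset _ _
  have hWpre : IsPreconnected W := isPreconnected_connectedComponentIn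
  have hWT : ∀ y ∈ W, y ∉ T := fun y hy hyT => hTi y hyT (mem_ins_of_mem hxS hy)
  obtain ⟨p, hpW, hpS⟩ : (closure W ∩ S).Nonempty := by
    by_contra hne
    rw [Set.not_nonempty_iff_eq_empty] at hne
    have hcl : closure W ⊆ Sᶜ := fun z hz hzS => by
      have : z ∈ closure W ∩ S := ⟨hz, hzS⟩
      rw [hne] at this
      exact this
    have h1 : closure W ⊆ W :=
      hWpre.closure.subset_connectedComponentIn (subset_closure hxW) hcl
    have h2 : IsClosed W := closure_subset_iff_isClosed.1 h1
    have h3 : W = univ := IsClopen.eq_univ ⟨h2, hWo⟩ ⟨x, hxW⟩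
    obtain ⟨s, hs⟩ := hSn
    exact hWS (h3 ▸ mem_univ s) hs
  have h1 : IsPreconnected (W ∪ {p}) :=
    hWpre.subset_closure subset_union_left
      (union_subset subset_closure (singleton_subset_iff.2 hpW))
  have h2 : IsPreconnected ((W ∪ {p}) ∪ S) :=
    h1.union p (Or.inr rfl) hpS hSc
  refine sub_ins_of_meet hSc hd.symm (t := p) hpS ?_
  refine mem_ins_of_mem hxT ?_
  refine h2.subset_connectedComponentIn (Or.inl (Or.inl hxW)) ?_ (Or.inr hpS)
  rintro z ((hz | hz) | hz) hzT
  · exact hWT z hz hzT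
  · rw [mem_singleton_iff] at hz
    subst hz
    exact Set.disjoint_left.1 hd hzT hpS
  · exact Set.disjoint_left.1 hd hzT hz

/-- A nested exhausting sequence with no member of the class `P` between consecutive terms is
maximal: every member of `P` enclosing one term meets a later one. -/
theorem meets [PreconnectedSpace X] [LocallyConnectedSpace X] (P : Set X → Prop)
    (hP : ∀ S, P S → IsClosed S ∧ IsPreconnected S ∧ S.Nonempty) (S : ℕ → Set X)
    (hS : ∀ n, P (S n)) (hn : ∀ n, S n ⊆ ins (S (n + 1)))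
    (hno : ∀ n, ¬ ∃ T, P T ∧ S n ⊆ ins T ∧ T ⊆ ins (S (n + 1)))
    (hex : ∀ x : X, ∃ N, ∀ n, N ≤ n → x ∈ ins (S n)) (m : ℕ) (T : Set X) (hT : P T)
    (hm : S m ⊆ ins T) : ∃ n, m < n ∧ (T ∩ S n).Nonempty := by
  by_contra hcon
  push Not at hcon
  have hdis : ∀ n, m < n → Disjoint T (S n) := fun n h =>
    Set.disjoint_iff_inter_eq_empty.2 (hcon n h)
  have key : ∀ k, S (m + k) ⊆ ins T := by
    intro k
    induction k with
    | zero => simpa using hm
    | succ k ih =>
      have h1 : ∀ t ∈ T, t ∉ ins (S (m + k + 1)) := by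
        intro t ht hti
        exact hno (m + k) ⟨T, hT, ih,
          sub_ins_of_meet (hP T hT).2.1 (hdis _ (by omega)) ht hti⟩
      obtain ⟨x, hx⟩ := (hP _ (hS (m + k))).2.2
      exact sub_ins_of_not (hP _ (hS _)).1 (hP _ (hS _)).2.1 (hP _ (hS _)).2.2
        (hdis _ (by omega)) h1 (hn _ hx) (ih hx)
  obtain ⟨t, ht⟩ := (hP T hT).2.2
  obtain ⟨N, hN⟩ := hex t
  have h1 := hN (m + N + 1) (by omega)
  exact hno (m + N) ⟨T, hT, key N, sub_ins_of_meet (hP T hT).2.1 (hdis _ (by omega)) ht h1⟩

end Pool.Agent.Y167.Nest
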